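import Mathlib

/-! # Polynomially ambiguous weighted automata (problem MP_df1c3e_lc): definitions and statements

Plan. `L` is algebraically closed. By induction on a composition series it is enough to treat
irreducible representations `ρ` of the free monoid. There (`S_B1`) one finds `v, φ ≠ 0` such that all
`φ (ρ w v)` lie in a finitely generated group or are zero; then (`S_HULL`, `S_LEMB`, `S_AUT`) the
function `w ↦ φ (ρ w v)` is unambiguous; off-diagonal blocks are convolutions. Finally `S_DESC`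
descends from `L` to the given field.
-/

set_option autoImplicit false

open Module

namespace Pool.Agent.K1H77.PA

/-- `x` is zero or in the group `H` of nonzero elements. -/
def In0 {L : Type} [Field L] (H : Subgroup Lˣ) (x : L) : Prop := x = 0 ∨ ∃ u ∈ H, (u : L) = x

/-- no positive powers of the two characters agree -/
def NT {A L : Type} [CommMonoid A] [Field L] (χ χ' : A →* Lˣ) : Prop :=
  ∀ m : ℕ, 1 ≤ m → χ ^ m ≠ χ' ^ m

/-! ## Number theory -/

/-- finitely many nonzero exponential sums have a common point where none of them vanishes -/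
def S_N : Prop :=
  ∀ (L A : Type) [Field L] [CommMonoid A] (C : Type) [Finite C] (ι : C → Type)
    [∀ c, Fintype (ι c)] (χ : ∀ c, ι c → (A →* Lˣ)) (d : ∀ c, ι c → L),
    (∀ c i j, i ≠ j → NT (χ c i) (χ c j)) → (∀ c, ∃ i, d c i ≠ 0) →
    ∃ a : A, ∀ c, ∑ i, d c i * (χ c i a : L) ≠ 0

/-- the unit equation in characteristic zero, for algebraic numbers -/
def UT2 (L : Type) [Field L] : Prop :=
  ∀ (G : Subgroup Lˣ), G.FG → ∀ m r : ℕ, r < m → ∃ R : Set L, R.Finite ∧
    ∀ (u : Fin m → Lˣ) (w : Fin r → L), (∀ i, u i ∈ G) → (∀ k, In0 G (w k)) →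
      ∑ i, (u i : L) = ∑ k, w k → ∃ i j, i ≠ j ∧ (u i : L) / u j ∈ R

/-- the unit equation in characteristic zero: linear independence of germs.  `g i` are functions on
`ℕ` with values in `G`, no two of them proportional with respect to the ultrafilter `𝒰`. -/
def ULI (L : Type) [Field L] : Prop :=
  ∀ (G : Subgroup Lˣ), G.FG → ∀ (𝒰 : Ultrafilter ℕ) (m : ℕ) (g : Fin m → ℕ → Lˣ),
    (∀ i n, g i n ∈ G) →
    (∀ i j, i ≠ j → ∀ c : L, ¬ ∀ᶠ n in (𝒰 : Filter ℕ), (g i n : L) = c * g j n) →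
    ∀ c : Fin m → L, (∀ᶠ n in (𝒰 : Filter ℕ), ∑ i, c i * (g i n : L) = 0) → c = 0

/-- algebraic numbers -/
def S_ULI_Q : Prop := ULI (AlgebraicClosure ℚ)

/-- one step of transcendence degree one -/
def S_ULI_STEP : Prop :=
  ∀ (k F : Type) [Field k] [Field F] [Algebra k F] [CharZero k] [IsAlgClosed k] [IsAlgClosed F]
    (t : F), Algebra.IsAlgebraic (IntermediateField.adjoin k {t}) F → ULI k → ULI F

def S_ULI : Prop := ∀ (L : Type) [Field L] [CharZero L], ULI L

def S_UT2 : Prop := ∀ (L : Type) [Field L] [CharZero L], UT2 L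

/-- an exponential sum all of whose values are sums of `r` elements of a finitely generated group
has at most `r` terms -/
def LEMA (L : Type) [Field L] : Prop :=
  ∀ (A : Type) [CommMonoid A] (G : Subgroup Lˣ), G.FG → ∀ (ι : Type) [Fintype ι]
    (χ : ι → (A →* Lˣ)) (c : ι → L) (r : ℕ), (∀ i a, χ i a ∈ G) →
    (∀ i j, i ≠ j → NT (χ i) (χ j)) → (∀ i, c i ≠ 0) →
    (∀ a, ∃ w : Fin r → L, (∀ k, In0 G (w k)) ∧ ∑ i, c i * (χ i a : L) = ∑ k, w k) →
    Fintype.card ι ≤ r

def S_LEMA0 : Prop := ∀ (L : Type) [Field L] [CharZero L], LEMA L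

/-- the perfect core of a finitely generated field of characteristic `p` is finite -/
def S_CORE : Prop :=
  ∀ (L : Type) [Field L] (p : ℕ) [Fact p.Prime] [CharP L p] (S : Finset L),
    {x : L | ∀ k : ℕ, ∃ y ∈ Subfield.closure (S : Set L), y ^ p ^ k = x}.Finite

def S_LEMAp : Prop := ∀ (L : Type) [Field L] (p : ℕ) [Fact p.Prime] [CharP L p], LEMA L

/-- `X` is not covered by finitely many proper subspaces -/
def Dns {L W : Type} [Field L] [AddCommGroup W] [Module L W] (X : Set W) : Prop :=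
  ∀ 𝒮 : Set (Submodule L W), 𝒮.Finite → (∀ Z ∈ 𝒮, Z ≠ ⊤) → ∃ x ∈ X, ∀ Z ∈ 𝒮, x ∉ Z

/-- functionals with values in a finitely generated group (or zero) on a dense set are finitely many
up to scalars -/
def LEMB (L : Type) [Field L] : Prop :=
  ∀ (W : Type) [AddCommGroup W] [Module L W] [FiniteDimensional L W] (H : Subgroup Lˣ), H.FG →
    ∀ (X : Set W) (Ψ : Set (Dual L W)), Dns (L := L) X → (∀ ψ ∈ Ψ, ∀ x ∈ X, In0 H (ψ x)) →
    ∃ P : Set (Dual L W), P.Finite ∧ ∀ ψ ∈ Ψ, ∃ p ∈ P, ∃ c : L, ψ = c • p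

def S_LEMB0 : Prop := ∀ (L : Type) [Field L] [CharZero L], LEMB L

def S_LEMBp : Prop := ∀ (L : Type) [Field L] (p : ℕ) [Fact p.Prime] [CharP L p], LEMB L

/-- the linear hull of a set -/
def S_HULL : Prop :=
  ∀ (L V : Type) [Field L] [AddCommGroup V] [Module L V] [FiniteDimensional L V] (X : Set V),
    ∃ (n : ℕ) (W : Fin n → Submodule L V), (∀ x ∈ X, ∃ j, x ∈ W j) ∧
      ∀ j, ∀ 𝒮 : Set (Submodule L V), 𝒮.Finite → (∀ Z ∈ 𝒮, ¬ W j ≤ Z) →
        ∃ x ∈ X, x ∈ W j ∧ ∀ Z ∈ 𝒮, x ∉ Z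

/-! ## Automata -/

/-- a weighted automaton with the set `Q` of states -/
structure GA (L σ Q : Type) where
  I : Q → L
  M : σ → Q → Q → L
  F : Q → L

section

variable {L σ Q : Type} [Field L] [Fintype Q]

open Classical in
/-- the weight of `w` from the state `q` -/
noncomputable def GA.vec (A : GA L σ Q) : List σ → Q → L
  | [], q => A.F q
  | a :: w, q => ∑ q', A.M a q q' * A.vec w q'

/-- the value at `w` -/
noncomputable def GA.val (A : GA L σ Q) (w : List σ) : L := ∑ q, A.I q * A.vec w q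

open Classical in
/-- the number of accepting runs from the state `q` -/
noncomputable def GA.cnt (A : GA L σ Q) : List σ → Q → ℕ
  | [], q => if A.F q ≠ 0 then 1 else 0
  | a :: w, q => ∑ q', if A.M a q q' ≠ 0 then A.cnt w q' else 0

open Classical in
/-- the number of accepting runs -/
noncomputable def GA.amb (A : GA L σ Q) (w : List σ) : ℕ :=
  ∑ q, if A.I q ≠ 0 then A.cnt w q else 0

/-- there is a run from `p` to `q` labelled `w`, with nonzero weights with product `c` -/
inductive GA.Run {L σ Q : Type} [Field L] (A : GA L σ Q) : List σ → Q → Q → L → Prop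
  | nil (q : Q) : GA.Run A [] q q 1
  | cons {a : σ} {w : List σ} {p r q : Q} {c : L} (h : A.M a p r ≠ 0) (hr : GA.Run A w r q c) :
      GA.Run A (a :: w) p q (A.M a p r * c)

end

/-- `f` is recognised by a polynomially ambiguous automaton all of whose closed runs have weights
satisfying `E` -/
def Good {L σ : Type} [Field L] (E : L → Prop) (f : List σ → L) : Prop :=
  ∃ (Q : Type) (_ : Fintype Q) (A : GA L σ Q),
    (∃ C k : ℕ, ∀ w, A.amb w ≤ C * (w.length + 1) ^ k) ∧
    (∀ w q c, w ≠ [] → A.Run w q q c → E c) ∧ ∀ w, A.val w = f w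

/-- convolution with a letter in between -/
noncomputable def conv {L σ : Type} [Field L] (f : List σ → L) (β : σ → L) (g : List σ → L)
    (w : List σ) : L :=
  ∑ i : Fin w.length, f (w.take i) * β (w.get i) * g (w.drop (i + 1))

def S_ADD : Prop := ∀ (L σ : Type) [Field L] (E : L → Prop) (f g : List σ → L),
  Good E f → Good E g → Good E (fun w => f w + g w)

def S_SMUL : Prop := ∀ (L σ : Type) [Field L] (E : L → Prop) (b : L) (f : List σ → L),
  Good E f → Good E (fun w => b * f w)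

def S_CONV : Prop := ∀ (L σ : Type) [Field L] (E : L → Prop) (β : σ → L) (f g : List σ → L),
  Good E f → Good E g → Good E (conv f β g)

/-- descent to a subfield -/
def S_DESC : Prop := ∀ (K L σ : Type) [Field K] [Field L] [Algebra K L] [Finite σ] (N : ℕ),
  1 ≤ N → ∀ f : List σ → K,
    Good (fun c : L => ∃ κ : K, algebraMap K L κ = c ^ N) (fun w => algebraMap K L (f w)) →
    ∃ (Q : Type) (_ : Fintype Q) (A : GA K σ Q),
      (∃ C k : ℕ, ∀ w, A.amb w ≤ C * (w.length + 1) ^ k) ∧ ∀ w, A.val w = f w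

/-! ## Representations of the free monoid -/

/-- the endomorphism of a word -/
noncomputable def act {L V σ : Type} [Field L] [AddCommGroup V] [Module L V]
    (ρ : σ → End L V) (w : List σ) : End L V := (w.map ρ).prod

/-- no invariant subspace -/
def Irr {L V σ : Type} [Field L] [AddCommGroup V] [Module L V] (ρ : σ → End L V) : Prop :=
  ∀ U : Submodule L V, (∀ a, ∀ u ∈ U, ρ a u ∈ U) → U = ⊥ ∨ U = ⊤

/-- block triangular induction -/
def S_BLOCK : Prop := ∀ (L σ : Type) [Field L] [Finite σ] (E E' : L → Prop),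
  (∀ (V : Type) [AddCommGroup V] [Module L V] [FiniteDimensional L V] [Nontrivial V]
    (ρ : σ → End L V), Irr ρ → (∀ w c, (act ρ w).HasEigenvalue c → E' c) →
    ∀ (l : Dual L V) (x : V), Good E (fun w => l (act ρ w x))) →
  ∀ (V : Type) [AddCommGroup V] [Module L V] [FiniteDimensional L V]
    (ρ : σ → End L V), (∀ w c, (act ρ w).HasEigenvalue c → E' c) →
    ∀ (l : Dual L V) (x : V), Good E (fun w => l (act ρ w x))

/-- the unambiguous automaton -/
def S_AUT : Prop := ∀ (L σ V : Type) [Field L] [AddCommGroup V] [Module L V]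
  [FiniteDimensional L V] (ρ : σ → End L V) (v : V) (φ : Dual L V) (n : ℕ)
  (U : Fin n → Submodule L V) (P : ∀ j, Set (Dual L (U j))), (∀ j, (P j).Finite) →
  (∀ w, ∃ j, act ρ w v ∈ U j) → (∀ a j, ∃ k, ∀ u ∈ U j, ρ a u ∈ U k) →
  (∀ w j, ∃ p ∈ P j, ∃ c : L, (φ ∘ₗ act ρ w).domRestrict (U j) = c • p) →
  ∀ E : L → Prop, (∀ w c, w ≠ [] → c ≠ 0 → (act ρ w).HasEigenvalue c → E c) →
  ∀ w1 w2, Good E (fun w => φ (act ρ w1 (act ρ w (act ρ w2 v))))

/-! ## Semigroups of matrices -/

/-- irreducible monoid with eigenvalues in a finitely generated group -/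
def S_B1 : Prop := ∀ (L V : Type) [Field L] [IsAlgClosed L] [AddCommGroup V] [Module L V]
  [FiniteDimensional L V] [Nontrivial V] (S : Submonoid (End L V)),
  (∀ U : Submodule L V, (∀ s ∈ S, ∀ u ∈ U, s u ∈ U) → U = ⊥ ∨ U = ⊤) →
  ∀ G : Subgroup Lˣ, G.FG → (∀ s ∈ S, ∀ c, s.HasEigenvalue c → In0 G c) →
  ∃ H : Subgroup Lˣ, H.FG ∧ ∃ (v : V) (φ : Dual L V), v ≠ 0 ∧ φ ≠ 0 ∧ ∀ s ∈ S, In0 H (φ (s v))

/-- the data of a spanning semigroup of invertible matrices -/
structure TData (L U : Type) [Field L] [AddCommGroup U] [Module L U] where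
  T : Subsemigroup (End L U)
  G : Subgroup Lˣ
  fg : G.FG
  unit : ∀ t ∈ T, IsUnit t
  span : Submodule.span L (T : Set (End L U)) = ⊤
  eig : ∀ t ∈ T, ∀ c, t.HasEigenvalue c → In0 G c

/-- the case of a group -/
def S_B1G : Prop := ∀ (L U : Type) [Field L] [IsAlgClosed L] [AddCommGroup U] [Module L U]
  [FiniteDimensional L U] [Nontrivial U] (D : TData L U),
  ∃ H : Subgroup Lˣ, H.FG ∧ ∃ (v : U) (φ : Dual L U), v ≠ 0 ∧ φ ≠ 0 ∧
    ∀ t ∈ D.T, In0 H (φ (t v))

/-- there is a family in `T` with the index set `ι`: a function on a commutative monoid with values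
in `T`, with the nonzero coefficients `F i` and characters `χ i` -/
def Fam {L U : Type} [Field L] [AddCommGroup U] [Module L U] (D : TData L U) (ι : Type)
    [Fintype ι] : Prop :=
  ∃ (A : Type) (_ : CommMonoid A) (χ : ι → (A →* Lˣ)) (F : ι → End L U),
    (∀ i a, χ i a ∈ D.G) ∧ (∀ i j, i ≠ j → NT (χ i) (χ j)) ∧ (∀ i, F i ≠ 0) ∧
    ∀ a, ∑ i, (χ i a : L) • F i ∈ D.T

/-- the number of characters is bounded -/
def S_BD : Prop := ∀ (L U : Type) [Field L] [IsAlgClosed L] [AddCommGroup U] [Module L U]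
  [FiniteDimensional L U] [Nontrivial U] (D : TData L U) (ι : Type) [Fintype ι],
  Fam D ι → Fintype.card ι ≤ finrank L U ^ 3

/-- powers of one element -/
def S_SPEC : Prop := ∀ (L U : Type) [Field L] [IsAlgClosed L] [AddCommGroup U] [Module L U]
  [FiniteDimensional L U] [Nontrivial U] (D : TData L U),
  ∃ M : ℕ, 1 ≤ M ∧ ∀ s ∈ D.T, ∃ n : ℕ, Fam D (Fin n) ∧ (n = 1 → ∃ c : L, s ^ M = c • 1)

/-- the semigroup is finite up to scalars -/
def S_FIN : Prop := ∀ (L U : Type) [Field L] [IsAlgClosed L] [AddCommGroup U] [Module L U]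
  [FiniteDimensional L U] [Nontrivial U] (D : TData L U) (M : ℕ), 1 ≤ M →
  (∀ s ∈ D.T, ∃ c : L, s ^ M = c • 1) →
  ∃ H : Subgroup Lˣ, H.FG ∧ ∃ (v : U) (φ : Dual L U), v ≠ 0 ∧ φ ≠ 0 ∧
    ∀ t ∈ D.T, In0 H (φ (t v))

/-- the decomposition given by a family with the largest number of characters -/
def S_DEC : Prop := ∀ (L U : Type) [Field L] [IsAlgClosed L] [AddCommGroup U] [Module L U]
  [FiniteDimensional L U] [Nontrivial U] (D : TData L U) (N : ℕ),
  Fam D (Fin N) → (∀ n, Fam D (Fin n) → n ≤ N) →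
  ∃ R : Fin N → Submodule L U, DirectSum.IsInternal R ∧ (∀ i, R i ≠ ⊥) ∧
    ∀ t ∈ D.T, ∀ i, ∃ j, (R i).map t = R j

end Pool.Agent.K1H77.PA
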