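import Pool.Agent.K1H77.PA.Stm

/-! # The literal definitions: weighted automata, runs, ambiguity -/

set_option autoImplicit false

open Module

namespace Pool.Agent.K1H77.PA

/-- A weighted automaton of dimension `d` over `K` on the alphabet `σ`: initial vector, transition
matrices of the letters, final vector. -/
structure WeightedAutomaton (K σ : Type) (d : ℕ) where
  I : Fin d → K
  M : σ → Matrix (Fin d) (Fin d) K
  F : Fin d → K

namespace WeightedAutomaton

variable {K σ : Type} [Field K] {d : ℕ}

/-- The transition matrix of a word, the product of the matrices of its letters. -/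
def mat (A : WeightedAutomaton K σ d) (w : List σ) : Matrix (Fin d) (Fin d) K := (w.map A.M).prod

/-- The value `Iᵀ M(w) F` at the word `w`. -/
def value (A : WeightedAutomaton K σ d) (w : List σ) : K := A.I ⬝ᵥ (A.mat w).mulVec A.F

/-- The sequence of states `q 0, …, q n` is an accepting run on the word `w` of length `n`. -/
def Accepting (A : WeightedAutomaton K σ d) (w : List σ) (q : Fin (w.length + 1) → Fin d) : Prop :=
  A.I (q 0) ≠ 0 ∧ (∀ i : Fin w.length, A.M (w.get i) (q i.castSucc) (q i.succ) ≠ 0) ∧
    A.F (q (Fin.last w.length)) ≠ 0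

/-- The number of accepting runs is bounded by a polynomial in the length of the word. -/
def PolynomiallyAmbiguous (A : WeightedAutomaton K σ d) : Prop :=
  ∃ p : Polynomial ℕ, ∀ w : List σ, Nat.card {q // A.Accepting w q} ≤ p.eval w.length

/-- the general form -/
def toGA (A : WeightedAutomaton K σ d) : GA K σ (Fin d) := ⟨A.I, A.M, A.F⟩

lemma vec_toGA (A : WeightedAutomaton K σ d) (w : List σ) (q : Fin d) :
    A.toGA.vec w q = (A.mat w).mulVec A.F q := by
  induction w generalizing q with
  | nil => simp [GA.vec, mat, toGA]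
  | cons a w ih =>
    have : A.mat (a :: w) = A.M a * A.mat w := by simp [mat]
    rw [this, ← Matrix.mulVec_mulVec]
    simp only [GA.vec, Matrix.mulVec, dotProduct]
    refine Finset.sum_congr rfl fun q' _ => ?_
    rw [ih q']
    rfl

lemma val_toGA (A : WeightedAutomaton K σ d) (w : List σ) : A.toGA.val w = A.value w := by
  unfold GA.val value dotProduct
  refine Finset.sum_congr rfl fun q _ => ?_
  rw [vec_toGA]
  rfl

/-- runs from a given state -/
def RunFrom (A : WeightedAutomaton K σ d) (w : List σ) (p : Fin d)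
    (q : Fin (w.length + 1) → Fin d) : Prop :=
  q 0 = p ∧ (∀ i : Fin w.length, A.M (w.get i) (q i.castSucc) (q i.succ) ≠ 0) ∧
    A.F (q (Fin.last w.length)) ≠ 0

lemma card_runFrom (A : WeightedAutomaton K σ d) (w : List σ) (p : Fin d) :
    Nat.card {q // A.RunFrom w p q} ≤ A.toGA.cnt w p := by
  classical
  induction w generalizing p with
  | nil =>
    by_cases h : A.F p ≠ 0
    · have h1 : A.toGA.cnt ([] : List σ) p = 1 := by simp [GA.cnt, toGA, h]
      rw [h1]
      have : Subsingleton {q // A.RunFrom ([] : List σ) p q} := by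
        refine ⟨fun q q' => Subtype.ext (funext fun i => ?_)⟩
        have hi : i = 0 := by
          apply Fin.ext
          have := i.2
          simp only [List.length_nil] at this
          simp only [Fin.val_zero]
          omega
        rw [hi, q.2.1, q'.2.1]
      exact Finite.card_le_one_iff_subsingleton.2 this
    · have : IsEmpty {q // A.RunFrom ([] : List σ) p q} := by
        refine ⟨fun q => h ?_⟩
        have h2 := q.2.2.2
        have h3 := q.2.1
        rw [← h3]
        exact h2
      simp
  | cons a w ih =>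
    have h1 : A.toGA.cnt (a :: w) p = ∑ p', if A.M a p p' ≠ 0 then A.toGA.cnt w p' else 0 := rfl
    rw [h1]
    let f : {q // A.RunFrom (a :: w) p q} → (Σ p' : Fin d, {q // A.M a p p' ≠ 0 ∧ A.RunFrom w p' q}) :=
      fun q => ⟨q.1 1, ⟨fun i => q.1 i.succ, by
        obtain ⟨q, hq0, hq1, hq2⟩ := q
        refine ⟨?_, rfl, fun i => ?_, ?_⟩
        · have := hq1 0
          have e : q (Fin.castSucc 0) = p := hq0
          rw [e] at this
          exact this
        · have := hq1 i.succ
          exact this
        · exact hq2⟩⟩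
    have hf : Function.Injective f := by
      rintro ⟨q, hq⟩ ⟨q', hq'⟩ h
      apply Subtype.ext
      funext i
      refine Fin.cases ?_ (fun i => ?_) i
      · show q 0 = q' 0
        rw [hq.1, hq'.1]
      · have h1 : q 1 = q' 1 := congrArg Sigma.fst h
        have h2 : (fun j : Fin (w.length + 1) => q j.succ) = fun j => q' j.succ := by
          have h3 := Sigma.mk.inj_iff.1 h
          have h4 : ∀ (x y : Fin d) (u : {q // A.M a p x ≠ 0 ∧ A.RunFrom w x q})
              (v : {q // A.M a p y ≠ 0 ∧ A.RunFrom w y q}), x = y → HEq u v → u.1 = v.1 := by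
            rintro x y u v rfl huv
            rw [eq_of_heq huv]
          exact h4 _ _ _ _ h3.1 h3.2
        exact congrFun h2 i
    calc Nat.card {q // A.RunFrom (a :: w) p q}
        ≤ Nat.card (Σ p' : Fin d, {q // A.M a p p' ≠ 0 ∧ A.RunFrom w p' q}) :=
          Nat.card_le_card_of_injective f hf
      _ = ∑ p' : Fin d, Nat.card {q // A.M a p p' ≠ 0 ∧ A.RunFrom w p' q} := Nat.card_sigma
      _ ≤ _ := by
          refine Finset.sum_le_sum fun p' _ => ?_
          by_cases h : A.M a p p' ≠ 0
          · rw [if_pos h]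
            refine le_trans ?_ (ih p')
            exact Nat.card_le_card_of_injective
              (fun q : {q // A.M a p p' ≠ 0 ∧ A.RunFrom w p' q} => (⟨q.1, q.2.2⟩ : {q // A.RunFrom w p' q}))
              (fun q q' hqq => Subtype.ext (Subtype.mk.inj hqq))
          · have : IsEmpty {q // A.M a p p' ≠ 0 ∧ A.RunFrom w p' q} := ⟨fun q => h q.2.1⟩
            simp

lemma card_accepting (A : WeightedAutomaton K σ d) (w : List σ) :
    Nat.card {q // A.Accepting w q} ≤ A.toGA.amb w := by
  classical
  unfold GA.amb
  let f : {q // A.Accepting w q} → (Σ p : Fin d, {q // A.I p ≠ 0 ∧ A.RunFrom w p q}) :=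
    fun q => ⟨q.1 0, ⟨q.1, q.2.1, rfl, q.2.2⟩⟩
  have hf : Function.Injective f := by
    rintro ⟨q, hq⟩ ⟨q', hq'⟩ h
    apply Subtype.ext
    have h3 := Sigma.mk.inj_iff.1 h
    have h4 : ∀ (x y : Fin d) (u : {q // A.I x ≠ 0 ∧ A.RunFrom w x q})
        (v : {q // A.I y ≠ 0 ∧ A.RunFrom w y q}), x = y → HEq u v → u.1 = v.1 := by
      rintro x y u v rfl huv
      rw [eq_of_heq huv]
    exact h4 _ _ _ _ h3.1 h3.2
  calc Nat.card {q // A.Accepting w q}
      ≤ Nat.card (Σ p : Fin d, {q // A.I p ≠ 0 ∧ A.RunFrom w p q}) :=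
        Nat.card_le_card_of_injective f hf
    _ = ∑ p : Fin d, Nat.card {q // A.I p ≠ 0 ∧ A.RunFrom w p q} := Nat.card_sigma
    _ ≤ _ := by
        refine Finset.sum_le_sum fun p _ => ?_
        by_cases h : A.I p ≠ 0
        · have h' : A.toGA.I p ≠ 0 := h
          rw [if_pos h']
          refine le_trans ?_ (card_runFrom A w p)
          exact Nat.card_le_card_of_injective
            (fun q : {q // A.I p ≠ 0 ∧ A.RunFrom w p q} => (⟨q.1, q.2.2⟩ : {q // A.RunFrom w p q}))
            (fun q q' hqq => Subtype.ext (Subtype.mk.inj hqq))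
        · have : IsEmpty {q // A.I p ≠ 0 ∧ A.RunFrom w p q} := ⟨fun q => h q.2.1⟩
          simp

end WeightedAutomaton

/-- an automaton with a finite set of states gives one of the literal form -/
theorem exists_literal {K σ Q : Type} [Field K] [Fintype Q] (A : GA K σ Q)
    (hA : ∃ C k : ℕ, ∀ w, A.amb w ≤ C * (w.length + 1) ^ k) :
    ∃ (d : ℕ) (B : WeightedAutomaton K σ d), B.PolynomiallyAmbiguous ∧
      ∀ w, B.value w = A.val w := by
  classical
  obtain ⟨C, k, hCk⟩ := hA
  let e := Fintype.equivFin Q
  let B : WeightedAutomaton K σ (Fintype.card Q) :=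
    ⟨fun i => A.I (e.symm i), fun a => Matrix.of fun i j => A.M a (e.symm i) (e.symm j),
      fun i => A.F (e.symm i)⟩
  have hvec : ∀ w i, B.toGA.vec w i = A.vec w (e.symm i) := by
    intro w
    induction w with
    | nil => intro i; rfl
    | cons a w ih =>
      intro i
      show ∑ j, A.M a (e.symm i) (e.symm j) * B.toGA.vec w j = ∑ q, A.M a (e.symm i) q * A.vec w q
      rw [← Equiv.sum_comp e.symm]
      exact Finset.sum_congr rfl fun j _ => by rw [ih j]
  have hcnt : ∀ w i, B.toGA.cnt w i = A.cnt w (e.symm i) := by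
    intro w
    induction w with
    | nil => intro i; rfl
    | cons a w ih =>
      intro i
      show (∑ j, if A.M a (e.symm i) (e.symm j) ≠ 0 then B.toGA.cnt w j else 0) =
        ∑ q, if A.M a (e.symm i) q ≠ 0 then A.cnt w q else 0
      rw [← Equiv.sum_comp e.symm]
      exact Finset.sum_congr rfl fun j _ => by rw [ih j]
  refine ⟨_, B, ⟨Polynomial.C C * (Polynomial.X + 1) ^ k, fun w => ?_⟩, fun w => ?_⟩
  · refine (B.card_accepting w).trans ?_
    have h1 : B.toGA.amb w = A.amb w := by
      show (∑ j, if A.I (e.symm j) ≠ 0 then B.toGA.cnt w j else 0) =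
        ∑ q, if A.I q ≠ 0 then A.cnt w q else 0
      rw [← Equiv.sum_comp e.symm]
      exact Finset.sum_congr rfl fun j _ => by rw [hcnt w j]
    rw [h1]
    refine (hCk w).trans (le_of_eq ?_)
    simp
  · rw [← B.val_toGA]
    show (∑ j, A.I (e.symm j) * B.toGA.vec w j) = ∑ q, A.I q * A.vec w q
    rw [← Equiv.sum_comp e.symm]
    exact Finset.sum_congr rfl fun j _ => by rw [hvec w j]

end Pool.Agent.K1H77.PA
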