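import Pool.Agent.K1H77.PA.Irr
import Pool.Agent.K1H77.PA.Lit

/-! # Assembly -/

set_option autoImplicit false

open Module

namespace Pool.Agent.K1H77.PA

theorem main (hB : S_B1) (hH : S_HULL) (hA : S_AUT) (hadd : S_ADD) (hsmul : S_SMUL)
    (hbl : S_BLOCK) (hdesc : S_DESC) (hL0 : S_LEMB0) (hLp : S_LEMBp)
    (K σ : Type) [Field K] [Finite σ] (d : ℕ) (A : WeightedAutomaton K σ d)
    (G : Subsemigroup (AlgebraicClosure K)) (hG : ∃ S : Finset (AlgebraicClosure K),
      Subsemigroup.closure (S : Set (AlgebraicClosure K)) = G) (N : ℕ) (hN : 1 ≤ N)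
    (h1 : ∀ (w : List σ) (α : AlgebraicClosure K),
      ((A.mat w).map (algebraMap K (AlgebraicClosure K))).charpoly.IsRoot α → α ∈ G)
    (h2 : ∀ α ∈ G, ∃ a : K, algebraMap K (AlgebraicClosure K) a = α ^ N) :
    ∃ (d' : ℕ) (B : WeightedAutomaton K σ d'), B.PolynomiallyAmbiguous ∧
      ∀ w, B.value w = A.value w := by
  classical
  let L := AlgebraicClosure K
  obtain ⟨S, hS⟩ : ∃ S : Finset L, Subsemigroup.closure (S : Set L) = G := hG
  have hL : LEMB L := by
    obtain ⟨p, hp⟩ := CharP.exists L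
    rcases CharP.char_is_prime_or_zero L p with hpp | hp0
    · have : Fact p.Prime := ⟨hpp⟩
      exact hLp L p
    · subst hp0
      have : CharZero L := CharP.charP_to_charZero L
      exact hL0 L
  let X : Set Lˣ := {u | (u : L) ∈ S}
  have hXf : X.Finite := by
    have : X = (fun u : Lˣ => (u : L)) ⁻¹' (S : Set L) := rfl
    rw [this]
    exact S.finite_toSet.preimage (fun u _ v _ h => Units.ext h)
  let 𝒢 : Subgroup Lˣ := Subgroup.closure X
  have hfg : 𝒢.FG := ⟨hXf.toFinset, by simp [𝒢]⟩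
  have hGin : ∀ x ∈ G, In0 𝒢 x := by
    intro x hx
    rw [← hS] at hx
    induction hx using Subsemigroup.closure_induction with
    | mem x hx =>
      by_cases h0 : x = 0
      · exact Or.inl h0
      · exact Or.inr ⟨Units.mk0 x h0, Subgroup.subset_closure (Finset.mem_coe.1 hx), rfl⟩
    | mul x y _ _ hx hy =>
      rcases hx with hx | ⟨u, hu, rfl⟩
      · left; rw [hx, zero_mul]
      · rcases hy with hy | ⟨v, hv, rfl⟩
        · left; rw [hy, mul_zero]
        · exact Or.inr ⟨u * v, mul_mem hu hv, by simp⟩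
  let E : L → Prop := fun c => ∃ κ : K, algebraMap K L κ = c ^ N
  have hEG : ∀ u ∈ 𝒢, E (u : Lˣ) := by
    intro u hu
    induction hu using Subgroup.closure_induction with
    | mem u hu =>
      refine h2 u ?_
      rw [← hS]
      exact Subsemigroup.subset_closure (Finset.mem_coe.2 hu)
    | one => exact ⟨1, by simp⟩
    | mul u v _ _ hu hv =>
      obtain ⟨a, ha⟩ := hu
      obtain ⟨b, hb⟩ := hv
      exact ⟨a * b, by rw [map_mul, ha, hb]; push_cast; ring⟩
    | inv u _ hu =>
      obtain ⟨a, ha⟩ := hu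
      exact ⟨a⁻¹, by rw [map_inv₀, ha]; simp⟩
  have hE : ∀ c : L, c ≠ 0 → In0 𝒢 c → E c := by
    rintro c hc (h | ⟨u, hu, rfl⟩)
    · exact absurd h hc
    · exact hEG u hu
  let ρ : σ → End L (Fin d → L) := fun a =>
    Matrix.toLin' ((A.M a).map (algebraMap K L))
  have hact : ∀ w, act ρ w = Matrix.toLin' ((A.mat w).map (algebraMap K L)) := by
    intro w
    induction w with
    | nil =>
      rw [act_nil]
      have : A.mat ([] : List σ) = 1 := by simp [WeightedAutomaton.mat]
      rw [this, Matrix.map_one _ (map_zero _) (map_one _), Matrix.toLin'_one]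
      rfl
    | cons a w ih =>
      have : A.mat (a :: w) = A.M a * A.mat w := by simp [WeightedAutomaton.mat]
      rw [act_cons, ih, this, Matrix.map_mul, Matrix.toLin'_mul]
      rfl
  have heig : ∀ w c, (act ρ w).HasEigenvalue c → In0 𝒢 c := by
    intro w c hc
    refine hGin c (h1 w c ?_)
    rw [hact] at hc
    have h3 := (Module.End.hasEigenvalue_iff_isRoot_charpoly _ _).1 hc
    rwa [Matrix.charpoly_toLin'] at h3
  have hgood := hbl L σ E (In0 𝒢) (by
    intro V _ _ _ _ ρ' hirr heig' l x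
    exact irr_good hB hH hA hadd hsmul hL ρ' hirr 𝒢 hfg heig' E hE l x)
    (Fin d → L) ρ heig (Matrix.toLin' (Matrix.of fun (_ : Fin 1) i => algebraMap K L (A.I i)) |>.comp
      LinearMap.id |> (LinearMap.proj (0 : Fin 1)).comp) (fun i => algebraMap K L (A.F i))
  have hfun : (fun w => ((Matrix.toLin' (Matrix.of fun (_ : Fin 1) i => algebraMap K L (A.I i)) |>.comp
      LinearMap.id |> (LinearMap.proj (0 : Fin 1)).comp)) (act ρ w (fun i => algebraMap K L (A.F i)))) =
      fun w => algebraMap K L (A.value w) := by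
    funext w
    rw [hact]
    show ∑ i, algebraMap K L (A.I i) * ((A.mat w).map (algebraMap K L)).mulVec
      (fun i => algebraMap K L (A.F i)) i = algebraMap K L (A.I ⬝ᵥ (A.mat w).mulVec A.F)
    unfold dotProduct
    rw [map_sum]
    refine Finset.sum_congr rfl fun i _ => ?_
    rw [map_mul]
    congr 1
    unfold Matrix.mulVec dotProduct
    rw [map_sum]
    refine Finset.sum_congr rfl fun j _ => ?_
    rw [map_mul]
    rfl
  rw [hfun] at hgood
  obtain ⟨Q, _, B, hB1, hB2⟩ := hdesc K L σ N hN A.value hgood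
  obtain ⟨d', C, hC1, hC2⟩ := exists_literal B hB1
  exact ⟨d', C, hC1, fun w => (hC2 w).trans (hB2 w)⟩

end Pool.Agent.K1H77.PA
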