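import Pool.Agent.K1H77.PA.Stm

/-! # The group case: induction on the dimension -/

set_option autoImplicit false

open Module

namespace Pool.Agent.K1H77.PA

section

variable {L U : Type} [Field L] [AddCommGroup U] [Module L U] [FiniteDimensional L U]

/-- the elements of `T` fixing `R`, restricted to `R` -/
def restrS (D : TData L U) (R : Submodule L U) : Subsemigroup (End L R) where
  carrier := {s | ∃ t ∈ D.T, R.map t = R ∧ ∀ x : R, (s x : U) = t x}
  mul_mem' := by
    rintro s s' ⟨t, ht, h1, h2⟩ ⟨t', ht', h1', h2'⟩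
    refine ⟨t * t', D.T.mul_mem ht ht', ?_, ?_⟩
    · rw [Module.End.mul_eq_comp, Submodule.map_comp, h1', h1]
    · intro x
      rw [Module.End.mul_apply, h2, h2', Module.End.mul_apply]

/-- the data on one summand -/
noncomputable def restrD (D : TData L U) (R C : Submodule L U) (hRC : IsCompl R C)
    (h : ∀ t ∈ D.T, R.map t = R ∨ R.map t ≤ C) : TData L R where
  T := restrS D R
  G := D.G
  fg := D.fg
  unit := by
    rintro s ⟨t, ht, h1, h2⟩
    rw [LinearMap.isUnit_iff_ker_eq_bot, LinearMap.ker_eq_bot']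
    intro x hx
    have h3 : t (x : U) = 0 := by rw [← h2, hx]; rfl
    have h4 := (LinearMap.isUnit_iff_ker_eq_bot t).1 (D.unit t ht)
    rw [LinearMap.ker_eq_bot'] at h4
    exact Subtype.ext (h4 _ h3)
  span := by
    classical
    let Λ : End L U →ₗ[L] End L R :=
      { toFun := fun t => (R.projectionOnto C hRC) ∘ₗ t ∘ₗ R.subtype
        map_add' := fun a b => by ext; simp
        map_smul' := fun a b => by ext; simp }
    have h1 : ∀ t ∈ D.T, Λ t ∈ Submodule.span L (restrS D R : Set (End L R)) := by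
      intro t ht
      rcases h t ht with h2 | h2
      · refine Submodule.subset_span ⟨t, ht, h2, fun x => ?_⟩
        have h3 : t (x : U) ∈ R := h2.le (Submodule.mem_map_of_mem x.2)
        show ((R.projectionOnto C hRC (t (x : U)) : R) : U) = t x
        rw [show t (x : U) = ((⟨t x, h3⟩ : R) : U) from rfl,
          Submodule.projectionOnto_apply_left]
      · have h3 : Λ t = 0 := by
          ext x
          show ((R.projectionOnto C hRC (t (x : U)) : R) : U) = 0
          rw [(Submodule.projectionOnto_apply_eq_zero_iff hRC).2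
            (h2 (Submodule.mem_map_of_mem x.2))]
          rfl
        rw [h3]; exact Submodule.zero_mem _
    have h2 : Submodule.map Λ (Submodule.span L (D.T : Set (End L U))) ≤
        Submodule.span L (restrS D R : Set (End L R)) := by
      rw [Submodule.map_span, Submodule.span_le]
      rintro _ ⟨t, ht, rfl⟩
      exact h1 t ht
    rw [D.span] at h2
    rw [eq_top_iff]
    refine le_trans ?_ h2
    intro s _
    refine ⟨R.subtype ∘ₗ s ∘ₗ R.projectionOnto C hRC, trivial, ?_⟩
    ext x
    show ((R.projectionOnto C hRC ((s (R.projectionOnto C hRC (x : U)) : R) : U) : R) : U)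
      = s x
    rw [Submodule.projectionOnto_apply_left, Submodule.projectionOnto_apply_left]
  eig := by
    rintro s ⟨t, ht, h1, h2⟩ c hc
    obtain ⟨x, hx⟩ := hc.exists_hasEigenvector
    refine D.eig t ht c (Module.End.hasEigenvalue_of_hasEigenvector (x := (x : U)) ?_)
    rw [Module.End.hasEigenvector_iff, Module.End.mem_eigenspace_iff]
    refine ⟨?_, fun h => hx.2 (Subtype.ext h)⟩
    rw [← h2, hx.apply_eq_smul]
    rfl

lemma fam_one [Nontrivial U] (D : TData L U) : Fam D (Fin 1) := by
  have h : (D.T : Set (End L U)).Nonempty := by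
    by_contra hcon
    rw [Set.not_nonempty_iff_eq_empty] at hcon
    have := D.span
    rw [hcon, Submodule.span_empty] at this
    exact bot_ne_top this
  obtain ⟨t, ht⟩ := h
  refine ⟨PUnit, inferInstance, fun _ => 1, fun _ => t, fun _ _ => one_mem _,
    fun i j hij => absurd (Subsingleton.elim i j) hij, fun _ h0 => ?_, fun a => ?_⟩
  · have := D.unit t ht
    have h0' : t = 0 := h0
    rw [h0'] at this
    exact not_isUnit_zero this
  · simpa using ht

lemma not_fam_zero [Nontrivial U] (D : TData L U) : ¬ Fam D (Fin 0) := by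
  rintro ⟨A, _, χ, F, -, -, -, h⟩
  have := D.unit _ (h 1)
  simp at this

end

lemma b1g_aux (h1 : S_BD) (h2 : S_SPEC) (h3 : S_FIN) (h4 : S_DEC) (n : ℕ) :
    ∀ (L U : Type) [Field L] [IsAlgClosed L] [AddCommGroup U] [Module L U]
      [FiniteDimensional L U] [Nontrivial U] (D : TData L U), finrank L U = n →
      ∃ H : Subgroup Lˣ, H.FG ∧ ∃ (v : U) (φ : Dual L U), v ≠ 0 ∧ φ ≠ 0 ∧
        ∀ t ∈ D.T, In0 H (φ (t v)) := by
  induction n using Nat.strong_induction_on with
  | _ n ih =>
  intro L U _ _ _ _ _ _ D hn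
  let S : Set ℕ := {m | Fam D (Fin m)}
  have hSb : BddAbove S := ⟨finrank L U ^ 3, fun m hm => by
    have := h1 L U D (Fin m) hm
    simpa using this⟩
  have hS1 : 1 ∈ S := fam_one D
  have hN : Fam D (Fin (sSup S)) := Nat.sSup_mem ⟨1, hS1⟩ hSb
  have hmax : ∀ m, Fam D (Fin m) → m ≤ sSup S := fun m hm => le_csSup hSb hm
  obtain ⟨N, hNe⟩ : ∃ N, N = sSup S := ⟨_, rfl⟩
  rw [← hNe] at hN hmax
  have hN1 : 1 ≤ N := hmax 1 hS1
  rcases hN1.eq_or_lt with hN2 | hN2
  · obtain ⟨M, hM, hsp⟩ := h2 L U D
    refine h3 L U D M hM fun s hs => ?_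
    obtain ⟨m, hm, hm2⟩ := hsp s hs
    have hm3 := hmax m hm
    have hm4 : m ≠ 0 := by
      rintro rfl
      exact not_fam_zero D hm
    exact hm2 (by omega)
  · obtain ⟨R, hR, hR0, hRT⟩ := h4 L U D N hN hmax
    let i0 : Fin N := ⟨0, by omega⟩
    let i1 : Fin N := ⟨1, by omega⟩
    have h01 : i1 ≠ i0 := by
      intro h
      have := congrArg Fin.val h
      simp [i0, i1] at this
    let C : Submodule L U := ⨆ (j : Fin N) (_ : j ≠ i0), R j
    have hle : ∀ j, j ≠ i0 → R j ≤ C := fun j hj => le_iSup₂_of_le j hj le_rfl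
    have hRC : IsCompl (R i0) C := by
      refine ⟨hR.submodule_iSupIndep i0, ?_⟩
      rw [codisjoint_iff, ← iSup_split_single, hR.submodule_iSup_eq_top]
    have hT : ∀ t ∈ D.T, (R i0).map t = R i0 ∨ (R i0).map t ≤ C := by
      intro t ht
      obtain ⟨j, hj⟩ := hRT t ht i0
      by_cases hj0 : j = i0
      · left; rw [hj, hj0]
      · right; rw [hj]; exact hle j hj0
    have hlt : finrank L (R i0) < n := by
      rw [← hn]
      apply Submodule.finrank_lt
      intro htop
      have h5 := hRC.disjoint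
      rw [htop, top_disjoint] at h5
      exact hR0 i1 (le_bot_iff.1 (h5 ▸ hle i1 h01))
    haveI : Nontrivial (R i0) := Submodule.nontrivial_iff_ne_bot.2 (hR0 i0)
    obtain ⟨H, hH, v, φ, hv, hφ, hvφ⟩ := ih _ hlt L (R i0) (restrD D (R i0) C hRC hT) rfl
    refine ⟨H, hH, (v : U), φ ∘ₗ (R i0).projectionOnto C hRC, ?_, ?_, ?_⟩
    · exact fun h => hv (Subtype.ext h)
    · intro h
      apply hφ
      ext x
      have := LinearMap.congr_fun h (x : U)
      rw [LinearMap.comp_apply, Submodule.projectionOnto_apply_left] at this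
      exact this
    · intro t ht
      rw [LinearMap.comp_apply]
      rcases hT t ht with h5 | h5
      · have h6 : ∀ x : R i0, t (x : U) ∈ R i0 := fun x =>
          h5.le (Submodule.mem_map_of_mem x.2)
        have h7 : t.restrict (p := R i0) (q := R i0) (fun x hx => h6 ⟨x, hx⟩) ∈
            (restrD D (R i0) C hRC hT).T := ⟨t, ht, h5, fun x => rfl⟩
        have h8 := hvφ _ h7
        rw [show t (v : U) = ((⟨t v, h6 v⟩ : R i0) : U) from rfl,
          Submodule.projectionOnto_apply_left]
        exact h8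
      · left
        rw [(Submodule.projectionOnto_apply_eq_zero_iff hRC).2
            (h5 (Submodule.mem_map_of_mem v.2)), map_zero]

theorem t_B1G (h1 : S_BD) (h2 : S_SPEC) (h3 : S_FIN) (h4 : S_DEC) : S_B1G := by
  intro L U _ _ _ _ _ _ D
  exact b1g_aux h1 h2 h3 h4 _ L U D rfl

end Pool.Agent.K1H77.PA
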