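import Pool.Agent.K1H77.PA.Stm

/-! # Semigroups that are finite up to scalars -/

set_option autoImplicit false

open Module

namespace Pool.Agent.K1H77.PA

lemma eig_ne_zero {L U : Type} [Field L] [AddCommGroup U] [Module L U] {t : End L U}
    (ht : IsUnit t) {c : L} (hc : t.HasEigenvalue c) : c ≠ 0 := by
  rintro rfl
  obtain ⟨v, hv⟩ := hc.exists_hasEigenvector
  have h1 := hv.apply_eq_smul
  rw [zero_smul] at h1
  obtain ⟨u, rfl⟩ := ht
  apply hv.2
  have : ((u⁻¹ : (End L U)ˣ) : End L U) ((u : End L U) v) = v := by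
    rw [← Module.End.mul_apply, ← Units.val_mul, inv_mul_cancel]; rfl
  rw [← this, h1, map_zero]

/-- sums of elements of finite sets -/
lemma finite_sums {L ι : Type} [AddCommMonoid L] (s : Finset ι) (B : ι → Set L)
    (hB : ∀ i ∈ s, (B i).Finite) :
    {x : L | ∃ f : ι → L, (∀ i ∈ s, f i ∈ B i) ∧ x = ∑ i ∈ s, f i}.Finite := by
  classical
  induction s using Finset.induction_on with
  | empty =>
    refine (Set.finite_singleton (0 : L)).subset ?_
    rintro x ⟨f, _, rfl⟩
    simp
  | insert a s ha ih =>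
    have h1 := ih fun i hi => hB i (Finset.mem_insert_of_mem hi)
    have h2 := hB a (Finset.mem_insert_self a s)
    refine (Set.Finite.image2 (fun x y => x + y) h2 h1).subset ?_
    rintro x ⟨f, hf, rfl⟩
    refine ⟨f a, hf a (Finset.mem_insert_self a s), ∑ i ∈ s, f i,
      ⟨f, fun i hi => hf i (Finset.mem_insert_of_mem hi), rfl⟩, ?_⟩
    rw [Finset.sum_insert ha]

/-- sums of multisets -/
lemma finite_msums {L : Type} [Field L] (Z : Set L) (hZ : Z.Finite) (n : ℕ) :
    {x : L | ∃ m : Multiset L, Multiset.card m = n ∧ (∀ y ∈ m, y ∈ Z) ∧ x = m.sum}.Finite := by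
  induction n with
  | zero =>
    refine (Set.finite_singleton (0 : L)).subset ?_
    rintro x ⟨m, hm, _, rfl⟩
    rw [Multiset.card_eq_zero] at hm
    simp [hm]
  | succ n ih =>
    refine (Set.Finite.image2 (fun x y => x + y) hZ ih).subset ?_
    rintro x ⟨m, hm, hmZ, rfl⟩
    obtain ⟨a, ha⟩ := Multiset.exists_mem_of_ne_zero (s := m) (by rintro rfl; simp at hm)
    obtain ⟨m', rfl⟩ := Multiset.exists_cons_of_mem ha
    refine ⟨a, hmZ a (by simp), m'.sum, ⟨m', by simpa using hm, fun y hy => hmZ y (by simp [hy]),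
      rfl⟩, by simp⟩

/-- products of multisets -/
lemma finite_mprods {L : Type} [Field L] (Z : Set L) (hZ : Z.Finite) (n : ℕ) :
    {x : L | ∃ m : Multiset L, Multiset.card m = n ∧ (∀ y ∈ m, y ∈ Z) ∧ x = m.prod}.Finite := by
  induction n with
  | zero =>
    refine (Set.finite_singleton (1 : L)).subset ?_
    rintro x ⟨m, hm, _, rfl⟩
    rw [Multiset.card_eq_zero] at hm
    simp [hm]
  | succ n ih =>
    refine (Set.Finite.image2 (fun x y => x * y) hZ ih).subset ?_
    rintro x ⟨m, hm, hmZ, rfl⟩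
    obtain ⟨a, ha⟩ := Multiset.exists_mem_of_ne_zero (s := m) (by rintro rfl; simp at hm)
    obtain ⟨m', rfl⟩ := Multiset.exists_cons_of_mem ha
    refine ⟨a, hmZ a (by simp), m'.prod, ⟨m', by simpa using hm, fun y hy => hmZ y (by simp [hy]),
      rfl⟩, by simp⟩

section

variable {L U : Type} [Field L] [IsAlgClosed L] [AddCommGroup U] [Module L U]
  [FiniteDimensional L U]

lemma card_roots_charpoly (s : End L U) :
    Multiset.card s.charpoly.roots = finrank L U := by
  rw [IsAlgClosed.card_roots_eq_natDegree, LinearMap.charpoly_natDegree]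

lemma trace_det_form (s : End L U) (lam : L) (hlam : lam ≠ 0) (Z : Set L)
    (h : ∀ μ, s.HasEigenvalue μ → μ / lam ∈ Z) :
    (∃ m : Multiset L, Multiset.card m = finrank L U ∧ (∀ y ∈ m, y ∈ Z) ∧
      LinearMap.trace L U s = lam * m.sum) ∧
    (∃ m : Multiset L, Multiset.card m = finrank L U ∧ (∀ y ∈ m, y ∈ Z) ∧
      LinearMap.det s = lam ^ finrank L U * m.prod) := by
  have hm : ∀ y ∈ s.charpoly.roots.map (fun μ => μ / lam), y ∈ Z := by
    intro y hy
    obtain ⟨μ, hμ, rfl⟩ := Multiset.mem_map.1 hy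
    refine h μ ?_
    rw [Module.End.hasEigenvalue_iff_isRoot_charpoly]
    exact (Polynomial.mem_roots'.1 hμ).2
  have hroots : (s.charpoly.roots.map (fun μ => μ / lam)).map (fun z => lam * z) =
      s.charpoly.roots := by
    rw [Multiset.map_map]
    conv_rhs => rw [← Multiset.map_id s.charpoly.roots]
    refine Multiset.map_congr rfl fun μ _ => ?_
    simp only [Function.comp_apply, id]
    field_simp
  have hcard : Multiset.card (s.charpoly.roots.map (fun μ => μ / lam)) = finrank L U := by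
    rw [Multiset.card_map, card_roots_charpoly]
  refine ⟨⟨_, hcard, hm, ?_⟩, ⟨_, hcard, hm, ?_⟩⟩
  · rw [Module.End.trace_eq_sum_roots_charpoly_of_splits (IsAlgClosed.splits _)]
    conv_lhs => rw [← hroots]
    rw [Multiset.sum_map_mul_left]
    simp
  · rw [Module.End.det_eq_prod_roots_charpoly_of_splits (IsAlgClosed.splits _)]
    conv_lhs => rw [← hroots]
    rw [Multiset.prod_map_mul, Multiset.map_const', Multiset.prod_replicate, hcard]
    simp

end

theorem t_FIN : S_FIN := by
  classical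
  intro L U _ _ _ _ _ _ D M hM hsc
  set n := finrank L U with hn
  have hn0 : n ≠ 0 := (finrank_pos (R := L) (M := U)).ne'
  let Z : Set L := {ζ | ζ ^ M = 1}
  have hZ : Z.Finite := by
    have : Z ⊆ ((Polynomial.X ^ M - 1 : Polynomial L).roots.toFinset : Set L) := by
      intro z hz
      have hne : (Polynomial.X ^ M - 1 : Polynomial L) ≠ 0 :=
        Polynomial.X_pow_sub_C_ne_zero (by omega) 1
      rw [Finset.mem_coe, Multiset.mem_toFinset, Polynomial.mem_roots hne]
      have hz' : z ^ M = 1 := hz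
      simp [hz']
    exact (Finset.finite_toSet _).subset this
  -- eigenvalues
  have hlam : ∀ s : D.T, ∃ c : L, (s : End L U).HasEigenvalue c := fun s =>
    Module.End.exists_eigenvalue _
  choose lam hlam using hlam
  have hlam0 : ∀ s, lam s ≠ 0 := fun s => eig_ne_zero (D.unit s s.2) (hlam s)
  have hlamG : ∀ s, ∃ u ∈ D.G, (u : L) = lam s := fun s => by
    rcases D.eig s s.2 _ (hlam s) with h | h
    · exact absurd h (hlam0 s)
    · exact h
  have hrat : ∀ (s : D.T) μ, (s : End L U).HasEigenvalue μ → μ / lam s ∈ Z := by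
    intro s μ hμ
    obtain ⟨c, hc⟩ := hsc s s.2
    have key : ∀ ν, (s : End L U).HasEigenvalue ν → ν ^ M = c := by
      intro ν hν
      obtain ⟨v, hv⟩ := hν.exists_hasEigenvector
      have h1 : ((s : End L U) ^ M) v = ν ^ M • v := by
        have : ∀ k : ℕ, ((s : End L U) ^ k) v = ν ^ k • v := by
          intro k
          induction k with
          | zero => simp
          | succ k ih =>
            rw [pow_succ, Module.End.mul_apply, hv.apply_eq_smul, map_smul, ih, smul_smul, pow_succ,
              mul_comm]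
        exact this M
      rw [hc] at h1
      have h2 : (c - ν ^ M) • v = 0 := by
        rw [sub_smul, ← h1]; simp
      rcases smul_eq_zero.1 h2 with h3 | h3
      · exact (sub_eq_zero.1 h3).symm
      · exact absurd h3 hv.2
    show (μ / lam s) ^ M = 1
    have hc0 : lam s ^ M ≠ 0 := pow_ne_zero _ (hlam0 s)
    rw [div_pow, key μ hμ, ← key _ (hlam s), div_self hc0]
  let Zs : Set L := {x : L | ∃ m : Multiset L, Multiset.card m = n ∧ (∀ y ∈ m, y ∈ Z) ∧ x = m.sum}
  let Zp : Set L := {x : L | ∃ m : Multiset L, Multiset.card m = n ∧ (∀ y ∈ m, y ∈ Z) ∧ x = m.prod}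
  have hZs : Zs.Finite := finite_msums Z hZ n
  have hZp : Zp.Finite := finite_mprods Z hZ n
  have htr : ∀ s : D.T, ∃ z ∈ Zs, LinearMap.trace L U (s : End L U) = lam s * z := by
    intro s
    obtain ⟨⟨m, h1, h2, h3⟩, -⟩ := trace_det_form (s : End L U) (lam s) (hlam0 s) Z (hrat s)
    exact ⟨_, ⟨m, h1, h2, rfl⟩, h3⟩
  have hdet : ∀ s : D.T, ∃ z ∈ Zp, LinearMap.det (s : End L U) = lam s ^ n * z := by
    intro s
    obtain ⟨-, ⟨m, h1, h2, h3⟩⟩ := trace_det_form (s : End L U) (lam s) (hlam0 s) Z (hrat s)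
    exact ⟨_, ⟨m, h1, h2, rfl⟩, h3⟩
  -- a vector and a functional
  obtain ⟨v, hv⟩ := exists_ne (0 : U)
  obtain ⟨φ, hφ⟩ : ∃ φ : Dual L U, φ v ≠ 0 := by
    by_contra hcon
    push Not at hcon
    exact hv ((Module.forall_dual_apply_eq_zero_iff L v).1 hcon)
  have hY : (LinearMap.toSpanSingleton L U v ∘ₗ φ : End L U) ∈ Submodule.span L (D.T : Set (End L U)) := by
    rw [D.span]; trivial
  obtain ⟨q, d, t, ht⟩ := Submodule.mem_span_set'.1 hY
  let t' : Fin q → D.T := fun i => ⟨(t i : End L U), (t i).2⟩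
  have hval : ∀ s : D.T, φ ((s : End L U) v) = ∑ i, d i * LinearMap.trace L U
      ((s * t' i : D.T) : End L U) := by
    intro s
    have h1 : LinearMap.trace L U ((s : End L U) * (LinearMap.toSpanSingleton L U v ∘ₗ φ)) =
        φ ((s : End L U) v) := by
      have h2 : (s : End L U) * (LinearMap.toSpanSingleton L U v ∘ₗ φ) =
          dualTensorHom L U U (φ ⊗ₜ[L] ((s : End L U) v)) := by
        ext x
        simp [dualTensorHom_apply]
      rw [h2]
      rw [LinearMap.trace_eq_contract_apply]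
      simp
    rw [← h1, ← ht, Finset.mul_sum, map_sum]
    refine Finset.sum_congr rfl fun i _ => ?_
    rw [mul_smul_comm, map_smul, smul_eq_mul]
    rfl
  -- quotients of the chosen eigenvalues
  let Fq : Fin q → Set L := fun i => {x : L | ∃ y ∈ Zp, ∃ z ∈ Zp,
    x ^ n = LinearMap.det (t' i : End L U) * y / z}
  have hFq : ∀ i, (Fq i).Finite := by
    intro i
    have h1 : (Set.image2 (fun y z => LinearMap.det (t' i : End L U) * y / z) Zp Zp).Finite :=
      Set.Finite.image2 _ hZp hZp
    have h2 : Fq i ⊆ ⋃ a ∈ (Set.image2 (fun y z => LinearMap.det (t' i : End L U) * y / z) Zp Zp),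
        {x : L | x ^ n = a} := by
      rintro x ⟨y, hy, z, hz, hx⟩
      simp only [Set.mem_iUnion]
      exact ⟨_, ⟨y, hy, z, hz, rfl⟩, hx⟩
    refine (h1.biUnion fun a _ => ?_).subset h2
    have h3 : {x : L | x ^ n = a} ⊆ ((Polynomial.X ^ n - Polynomial.C a : Polynomial L).roots.toFinset
        : Set L) := by
      intro x hx
      have hne : (Polynomial.X ^ n - Polynomial.C a : Polynomial L) ≠ 0 :=
        Polynomial.X_pow_sub_C_ne_zero (by omega) a
      rw [Finset.mem_coe, Multiset.mem_toFinset, Polynomial.mem_roots hne]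
      have hx' : x ^ n = a := hx
      simp [hx']
    exact (Finset.finite_toSet _).subset h3
  let B : Fin q → Set L := fun i => Set.image2 (fun x z => d i * (x * z)) (Fq i) Zs
  have hB : ∀ i, (B i).Finite := fun i => Set.Finite.image2 _ (hFq i) hZs
  let Φ : Set L := {x : L | ∃ f : Fin q → L, (∀ i ∈ Finset.univ, f i ∈ B i) ∧
    x = ∑ i ∈ (Finset.univ : Finset (Fin q)), f i}
  have hΦ : Φ.Finite := finite_sums Finset.univ B fun i _ => hB i
  have hmain : ∀ s : D.T, ∃ x ∈ Φ, φ ((s : End L U) v) = lam s * x := by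
    intro s
    have h1 : ∀ i, ∃ b ∈ B i, d i * LinearMap.trace L U ((s * t' i : D.T) : End L U) = lam s * b := by
      intro i
      obtain ⟨z, hz, hz2⟩ := htr (s * t' i)
      refine ⟨d i * ((lam (s * t' i) / lam s) * z), ⟨_, ?_, z, hz, rfl⟩, ?_⟩
      · obtain ⟨y1, hy1, h11⟩ := hdet s
        obtain ⟨y2, hy2, h12⟩ := hdet (s * t' i)
        refine ⟨y1, hy1, y2, hy2, ?_⟩
        have h13 : LinearMap.det ((s * t' i : D.T) : End L U) =
            LinearMap.det (s : End L U) * LinearMap.det (t' i : End L U) := by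
          rw [← map_mul]; rfl
        have hy20 : y2 ≠ 0 := by
          rintro rfl
          rw [mul_zero] at h12
          have h14 := (D.unit _ (s * t' i).2).map (LinearMap.det : End L U →* L)
          rw [h12] at h14
          exact not_isUnit_zero h14
        rw [div_pow]
        have h15 := pow_ne_zero n (hlam0 s)
        rw [div_eq_div_iff h15 hy20]
        rw [← h12, h13, h11]
        ring
      · rw [hz2]
        have := hlam0 s
        field_simp
    choose b hb1 hb2 using h1
    refine ⟨∑ i, b i, ⟨b, fun i _ => hb1 i, rfl⟩, ?_⟩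
    rw [hval s, Finset.mul_sum]
    exact Finset.sum_congr rfl fun i _ => hb2 i
  let X : Set Lˣ := {u | (u : L) ∈ Φ}
  have hXf : X.Finite := hΦ.preimage (fun u _ v _ h => Units.ext h)
  refine ⟨D.G ⊔ Subgroup.closure X, D.fg.sup ⟨hXf.toFinset, by simp⟩, v, φ, hv, ?_, ?_⟩
  · rintro rfl
    exact hφ rfl
  · intro s hs
    obtain ⟨x, hx, hx2⟩ := hmain ⟨s, hs⟩
    have hx3 : φ (s v) = lam ⟨s, hs⟩ * x := hx2
    rw [hx3]
    by_cases h0 : x = 0
    · left; rw [h0, mul_zero]
    · right
      obtain ⟨u, hu, hu2⟩ := hlamG ⟨s, hs⟩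
      refine ⟨u * Units.mk0 x h0, mul_mem (Subgroup.mem_sup_left hu)
        (Subgroup.mem_sup_right (Subgroup.subset_closure hx)), ?_⟩
      rw [Units.val_mul, hu2, Units.val_mk0]

end Pool.Agent.K1H77.PA
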