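import Pool.Agent.K1H77.PA.Lit

/-! # Universe reduction

The statement over all fields in `Type` implies the statement over fields and alphabets in arbitrary
universes: the automaton and the `N`-th powers of the generators of the semigroup live over a
finitely generated, hence countable, subfield. -/

set_option autoImplicit false

open Module

universe u v

namespace Pool.Agent.K1H77.PA

/-- A weighted automaton of dimension `d` over `K` on the alphabet `σ`: initial vector `I`,
transition matrices `M a` of the letters `a`, final vector `F`. -/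
structure WA (K : Type u) (σ : Type v) (d : ℕ) where
  I : Fin d → K
  M : σ → Matrix (Fin d) (Fin d) K
  F : Fin d → K

namespace WA

variable {K : Type u} {σ : Type v} [Field K] {d : ℕ}

/-- `M(w)`: the transition matrix of a word, the product of the matrices of its letters. -/
def mat (A : WA K σ d) (w : List σ) : Matrix (Fin d) (Fin d) K := (w.map A.M).prod

/-- The value `Iᵀ M(w) F` of the automaton at the word `w`. -/
def value (A : WA K σ d) (w : List σ) : K := A.I ⬝ᵥ (A.mat w).mulVec A.F

/-- The sequence of states `q 0, …, q n` is an accepting run on the word `w` of length `n`: the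
entries of the automaton along it are nonzero. -/
def Accepting (A : WA K σ d) (w : List σ) (q : Fin (w.length + 1) → Fin d) : Prop :=
  A.I (q 0) ≠ 0 ∧ (∀ i : Fin w.length, A.M (w.get i) (q i.castSucc) (q i.succ) ≠ 0) ∧
    A.F (q (Fin.last w.length)) ≠ 0

/-- The number of accepting runs on `w` is bounded by a polynomial in the length of `w`. -/
def PolynomiallyAmbiguous (A : WA K σ d) : Prop :=
  ∃ p : Polynomial ℕ, ∀ w : List σ, Nat.card {q // A.Accepting w q} ≤ p.eval w.length

end WA

lemma exists_small {K : Type u} [Field K] (T : Set K) (hT : T.Finite) :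
    ∃ (k : Type) (_ : Field k) (f : k →+* K), ∀ x ∈ T, ∃ y, f y = x := by
  have h1 : Cardinal.mk (Subfield.closure T) ≤ Cardinal.aleph0 := by
    refine (Subfield.cardinalMk_closure_le_max T).trans (max_le ?_ le_rfl)
    exact Cardinal.mk_le_aleph0_iff.2 hT.countable.to_subtype
  haveI : Countable (Subfield.closure T) := Cardinal.mk_le_aleph0_iff.1 h1
  haveI : Small.{0} (Subfield.closure T) := inferInstance
  refine ⟨Shrink.{0} (Subfield.closure T), inferInstance,
    (Subfield.closure T).subtype.comp (Shrink.ringEquiv (Subfield.closure T)).toRingHom,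
    fun x hx => ⟨(Shrink.ringEquiv (Subfield.closure T)).symm
      ⟨x, Subfield.subset_closure hx⟩, ?_⟩⟩
  simp

lemma exists_closure_map {k : Type} {K : Type u} [Field k] [Field K] (f : k →+* K) :
    ∃ j : AlgebraicClosure k →+* AlgebraicClosure K,
      ∀ x, j (algebraMap _ _ x) = algebraMap _ _ (f x) := by
  letI : Algebra k (AlgebraicClosure K) := ((algebraMap K (AlgebraicClosure K)).comp f).toAlgebra
  refine ⟨(IsAlgClosed.lift (R := k) (S := AlgebraicClosure k) (M := AlgebraicClosure K)).toRingHom,
    fun x => ?_⟩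
  exact (IsAlgClosed.lift (R := k) (S := AlgebraicClosure k) (M := AlgebraicClosure K)).commutes x

section up

variable {k τ : Type} {K : Type u} {σ : Type v} [Field k] [Field K] (f : k →+* K) (e : σ ≃ τ)
  {d : ℕ}

/-- the same automaton over a larger field -/
def WeightedAutomaton.up (B : WeightedAutomaton k τ d) : WA K σ d :=
  ⟨fun i => f (B.I i), fun a => (B.M (e a)).map f, fun i => f (B.F i)⟩

lemma mat_up (B : WeightedAutomaton k τ d) (w : List σ) :
    (B.up f e).mat w = (B.mat (w.map e)).map f := by
  induction w with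
  | nil =>
    have h1 : B.mat (([] : List σ).map e) = 1 := by simp [WeightedAutomaton.mat]
    have h2 : (B.up f e).mat [] = 1 := by simp [WA.mat]
    rw [h1, h2, Matrix.map_one _ (map_zero _) (map_one _)]
  | cons a w ih =>
    have h1 : B.mat ((a :: w).map e) = B.M (e a) * B.mat (w.map e) := by
      simp [WeightedAutomaton.mat]
    have h2 : (B.up f e).mat (a :: w) = (B.up f e).M a * (B.up f e).mat w := by simp [WA.mat]
    rw [h1, h2, ih, Matrix.map_mul]
    rfl

lemma value_up (B : WeightedAutomaton k τ d) (w : List σ) :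
    (B.up f e).value w = f (B.value (w.map e)) := by
  unfold WA.value WeightedAutomaton.value
  rw [mat_up]
  unfold dotProduct
  rw [map_sum]
  refine Finset.sum_congr rfl fun i _ => ?_
  rw [map_mul]
  congr 1
  unfold Matrix.mulVec dotProduct
  rw [map_sum]
  refine Finset.sum_congr rfl fun j _ => ?_
  rw [map_mul]
  rfl

lemma ambiguous_up (B : WeightedAutomaton k τ d) (hB : B.PolynomiallyAmbiguous) :
    (B.up f e).PolynomiallyAmbiguous := by
  obtain ⟨p, hp⟩ := hB
  refine ⟨p, fun w => ?_⟩
  have h1 := hp (w.map e)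
  have hlen : (w.map e).length = w.length := List.length_map _
  refine le_trans ?_ (h1.trans (le_of_eq (by rw [hlen])))
  refine Nat.card_le_card_of_injective (fun q : {q // (B.up f e).Accepting w q} =>
    (⟨fun i => q.1 (Fin.cast (by rw [hlen]) i), ?_⟩ :
      {q // B.Accepting (w.map e) q})) ?_
  · obtain ⟨q, hq0, hq1, hq2⟩ := q
    refine ⟨fun h => hq0 ?_, fun i h => ?_, fun h => hq2 ?_⟩
    · show f _ = 0
      rw [← map_zero f]
      exact congrArg f h
    · apply hq1 (Fin.cast hlen i)
      show f _ = 0
      rw [← map_zero f]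
      refine congrArg f ?_
      rw [← h]
      congr 1
      simp
    · show f _ = 0
      rw [← map_zero f]
      refine congrArg f ?_
      rw [← h]
      have h5 : ∀ (a : Fin ((w.map e).length + 1)) (b : Fin (w.length + 1)), (a : ℕ) = b →
          ∀ h6, q b = q (Fin.cast h6 a) := by
        intro a b hab h6
        congr 1
        exact Fin.ext hab.symm
      congr 1
      exact h5 _ _ (by simp) _
  · intro q q' h
    apply Subtype.ext
    funext i
    have := congrFun (Subtype.mk.inj h) (Fin.cast (by rw [hlen]) i)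
    exact this

end up

/-- the statement over fields in `Type` -/
def Main0 : Prop :=
  ∀ (K σ : Type) [Field K] [Finite σ] (d : ℕ) (A : WeightedAutomaton K σ d)
    (G : Subsemigroup (AlgebraicClosure K)), (∃ S : Finset (AlgebraicClosure K),
      Subsemigroup.closure (S : Set (AlgebraicClosure K)) = G) → ∀ N : ℕ, 1 ≤ N →
    (∀ (w : List σ) (α : AlgebraicClosure K),
      ((A.mat w).map (algebraMap K (AlgebraicClosure K))).charpoly.IsRoot α → α ∈ G) →
    (∀ α ∈ G, ∃ a : K, algebraMap K (AlgebraicClosure K) a = α ^ N) →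
    ∃ (d' : ℕ) (B : WeightedAutomaton K σ d'), B.PolynomiallyAmbiguous ∧
      ∀ w, B.value w = A.value w

theorem univ_red (h0 : Main0) (K : Type u) (σ : Type v) [Field K] [Finite σ] (d : ℕ)
    (A : WA K σ d) (G : Subsemigroup (AlgebraicClosure K))
    (hG : ∃ S : Finset (AlgebraicClosure K),
      Subsemigroup.closure (S : Set (AlgebraicClosure K)) = G) (N : ℕ) (hN : 1 ≤ N)
    (h1 : ∀ (w : List σ) (α : AlgebraicClosure K),
      ((A.mat w).map (algebraMap K (AlgebraicClosure K))).charpoly.IsRoot α → α ∈ G)
    (h2 : ∀ α ∈ G, ∃ a : K, algebraMap K (AlgebraicClosure K) a = α ^ N) :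
    ∃ (d' : ℕ) (B : WA K σ d'), B.PolynomiallyAmbiguous ∧ ∀ w, B.value w = A.value w := by
  classical
  obtain ⟨S, hS⟩ := hG
  have hSG : ∀ s : S, (s : AlgebraicClosure K) ∈ G := fun s => by
    rw [← hS]; exact Subsemigroup.subset_closure s.2
  choose κ hκ using fun s : S => h2 _ (hSG s)
  obtain ⟨k, _, f, hf⟩ := exists_small (K := K)
    (((Set.range A.I ∪ Set.range A.F) ∪
      Set.range (fun p : σ × Fin d × Fin d => A.M p.1 p.2.1 p.2.2)) ∪ Set.range κ)
    ((((Set.finite_range _).union (Set.finite_range _)).union (Set.finite_range _)).union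
      (Set.finite_range _))
  choose I0 hI0 using fun i => hf (A.I i) (Or.inl (Or.inl (Or.inl ⟨i, rfl⟩)))
  choose F0 hF0 using fun i => hf (A.F i) (Or.inl (Or.inl (Or.inr ⟨i, rfl⟩)))
  choose M0 hM0 using fun (a : σ) i j => hf (A.M a i j) (Or.inl (Or.inr ⟨(a, i, j), rfl⟩))
  choose κ0 hκ0 using fun s => hf (κ s) (Or.inr ⟨s, rfl⟩)
  obtain ⟨n, ⟨e⟩⟩ := Finite.exists_equiv_fin σ
  let A0 : WeightedAutomaton k (Fin n) d :=
    ⟨I0, fun a => Matrix.of fun i j => M0 (e.symm a) i j, F0⟩
  have hA : A0.up f e = A := by
    show WA.mk _ _ _ = A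
    have e1 : (fun i => f (A0.I i)) = A.I := funext hI0
    have e2 : (fun i => f (A0.F i)) = A.F := funext hF0
    have e3 : (fun a => (A0.M (e a)).map f) = A.M := by
      funext a
      ext i j
      show f (M0 (e.symm (e a)) i j) = _
      rw [Equiv.symm_apply_apply, hM0]
    rw [e1, e2, e3]
  obtain ⟨j, hj⟩ := exists_closure_map f
  have hjinj : Function.Injective j := j.injective
  -- the generators
  have hs0 : ∀ s : S, ∃ x : AlgebraicClosure k, j x = s := by
    intro s
    let P : Polynomial (AlgebraicClosure k) :=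
      Polynomial.X ^ N - Polynomial.C (algebraMap _ _ (κ0 s))
    have hP : P ≠ 0 := Polynomial.X_pow_sub_C_ne_zero hN _
    have hmap : (P.map j).roots = P.roots.map j :=
      (IsAlgClosed.splits P).roots_map j
    have h3 : (s : AlgebraicClosure K) ∈ (P.map j).roots := by
      rw [Polynomial.mem_roots ((Polynomial.map_ne_zero_iff hjinj).2 hP)]
      simp only [P, Polynomial.IsRoot.def, Polynomial.eval_map, Polynomial.eval₂_sub,
        Polynomial.eval₂_pow, Polynomial.eval₂_X, Polynomial.eval₂_C]
      rw [hj, hκ0, hκ, sub_self]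
    rw [hmap] at h3
    obtain ⟨x, _, hx⟩ := Multiset.mem_map.1 h3
    exact ⟨x, hx⟩
  choose x0 hx0 using hs0
  have hx0N : ∀ s, x0 s ^ N = algebraMap _ _ (κ0 s) := by
    intro s
    apply hjinj
    rw [map_pow, hx0, hj, hκ0, hκ]
  let S0 : Finset (AlgebraicClosure k) := Finset.univ.image x0
  let G0 : Subsemigroup (AlgebraicClosure k) := Subsemigroup.closure (S0 : Set (AlgebraicClosure k))
  have hG0 : ∀ x, j x ∈ G → x ∈ G0 := by
    have : ∀ y ∈ G, ∃ x ∈ G0, j x = y := by
      intro y hy
      rw [← hS] at hy
      induction hy using Subsemigroup.closure_induction with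
      | mem y hy =>
        refine ⟨x0 ⟨y, hy⟩, Subsemigroup.subset_closure ?_, hx0 _⟩
        simp [S0]
      | mul y z _ _ ihy ihz =>
        obtain ⟨a, ha, rfl⟩ := ihy
        obtain ⟨b, hb, rfl⟩ := ihz
        exact ⟨a * b, mul_mem ha hb, map_mul _ _ _⟩
    intro x hx
    obtain ⟨x', hx', he⟩ := this _ hx
    rwa [← hjinj he]
  have hG0N : ∀ x ∈ G0, ∃ a : k, algebraMap k (AlgebraicClosure k) a = x ^ N := by
    intro x hx
    induction hx using Subsemigroup.closure_induction with
    | mem x hx =>
      simp only [S0, Finset.coe_image, Finset.coe_univ, Set.image_univ, Set.mem_range] at hx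
      obtain ⟨s, rfl⟩ := hx
      exact ⟨κ0 s, (hx0N s).symm⟩
    | mul x y _ _ ihx ihy =>
      obtain ⟨a, ha⟩ := ihx
      obtain ⟨b, hb⟩ := ihy
      exact ⟨a * b, by rw [map_mul, ha, hb, mul_pow]⟩
  obtain ⟨d', B, hB1, hB2⟩ := h0 k (Fin n) d A0 G0 ⟨S0, rfl⟩ N hN (by
    intro w α hα
    apply hG0
    apply h1 (w.map e.symm)
    have h4 : ((A.mat (w.map e.symm)).map (algebraMap K (AlgebraicClosure K))) =
        ((A0.mat w).map (algebraMap k (AlgebraicClosure k))).map j := by
      rw [← hA, mat_up]
      rw [List.map_map]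
      have : (e ∘ e.symm) = id := by funext x; simp
      rw [this, List.map_id]
      ext i i'
      simp only [Matrix.map_apply]
      rw [hj]
    rw [h4, Matrix.charpoly_map]
    rw [Polynomial.IsRoot.def] at hα ⊢
    rw [Polynomial.eval_map_apply, hα, map_zero]) hG0N
  refine ⟨d', B.up f e, ambiguous_up f e B hB1, fun w => ?_⟩
  rw [value_up, hB2, ← hA, value_up]

end Pool.Agent.K1H77.PA
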