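import Pool.Agent.K1H77.PA.Asm
import Pool.Agent.K1H77.PA.Univ
import Pool.Agent.K1H77.PA.FinS
import Pool.Agent.K1H77.PA.B1GS
import Pool.Agent.K1H1.PA.Aut
import Pool.Agent.K1H1.PA.Core
import Pool.Agent.K1H20.PA.B1
import Pool.Agent.K1H33.PA.LemAp
import Pool.Agent.K1H33.PA.LemBp
import Pool.Agent.K1H37.PA.Block
import Pool.Agent.K1H58.PA.Desc
import Pool.Agent.K1H61.PA.Bd
import Pool.Agent.K1H61.PA.Dec
import Pool.Agent.K1H61.PA.Spec
import Pool.Agent.K1H65.PA.Unit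
import Pool.Agent.K1H89.PA.Hull
import Pool.Agent.K1H89.PA.Lem
import Pool.Agent.K1H89.PA.Sums
import Pool.Agent.K1H96.PA.Clo

/-! # Everything except the unit equation in characteristic zero -/

set_option autoImplicit false

open Module

namespace Pool.Agent.K1H77.PA

theorem main0 (hU : S_ULI) : Main0 := by
  have hN : S_N := K1H89.PA.t_N
  have hUT : S_UT2 := K1H65.PA.t_UT2 hU
  have hA0 : S_LEMA0 := K1H89.PA.t_LEMA0 hN hUT
  have hB0 : S_LEMB0 := K1H89.PA.t_LEMB0 hUT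
  have hC : S_CORE := K1H1.PA.t_CORE
  have hAp : S_LEMAp := K1H33.PA.t_LEMAp hN hC
  have hBp : S_LEMBp := K1H33.PA.t_LEMBp hC
  have hBD : S_BD := K1H61.PA.t_BD hA0 hAp
  have hSP : S_SPEC := K1H61.PA.t_SPEC hA0
  have hB1 : S_B1 := K1H20.PA.t_B1 (t_B1G hBD hSP t_FIN K1H61.PA.t_DEC)
  intro K σ _ _ d A G hG N hN1 h1 h2
  exact main hB1 K1H89.PA.t_HULL K1H1.PA.t_AUT K1H96.PA.t_ADD K1H96.PA.t_SMUL
    (K1H37.PA.t_BLOCK K1H96.PA.t_ADD K1H96.PA.t_SMUL K1H96.PA.t_CONV) K1H58.PA.t_DESC hB0 hBp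
    K σ d A G hG N hN1 h1 h2

end Pool.Agent.K1H77.PA
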