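import Pool.Agent.K1H77.PA.Stm

/-! # The irreducible case -/

set_option autoImplicit false

open Module

namespace Pool.Agent.K1H77.PA

section act

variable {L V σ : Type} [Field L] [AddCommGroup V] [Module L V] (ρ : σ → End L V)

@[simp] lemma act_nil : act ρ [] = 1 := by simp [act]

@[simp] lemma act_cons (a : σ) (w : List σ) : act ρ (a :: w) = ρ a * act ρ w := by simp [act]

lemma act_append (u w : List σ) : act ρ (u ++ w) = act ρ u * act ρ w := by simp [act]

/-- the monoid of the matrices of all words -/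
def actM : Submonoid (End L V) where
  carrier := Set.range (act ρ)
  mul_mem' := by
    rintro _ _ ⟨u, rfl⟩ ⟨w, rfl⟩
    exact ⟨u ++ w, act_append ρ u w⟩
  one_mem' := ⟨[], act_nil ρ⟩

lemma span_orbit (h : Irr ρ) (v : V) (hv : v ≠ 0) :
    Submodule.span L (Set.range fun w => act ρ w v) = ⊤ := by
  have hinv : ∀ a, ∀ u ∈ Submodule.span L (Set.range fun w => act ρ w v),
      ρ a u ∈ Submodule.span L (Set.range fun w => act ρ w v) := by
    intro a u hu
    have : Submodule.span L (Set.range fun w => act ρ w v) ≤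
        (Submodule.span L (Set.range fun w => act ρ w v)).comap (ρ a) := by
      rw [Submodule.span_le]
      rintro _ ⟨w, rfl⟩
      exact Submodule.subset_span ⟨a :: w, by simp⟩
    exact this hu
  rcases h _ hinv with h1 | h1
  · exfalso
    apply hv
    have : v ∈ Submodule.span L (Set.range fun w => act ρ w v) :=
      Submodule.subset_span ⟨[], by simp⟩
    rw [h1] at this
    simpa using this
  · exact h1

lemma span_dual [FiniteDimensional L V] (h : Irr ρ) (φ : Dual L V) (hφ : φ ≠ 0) :
    Submodule.span L (Set.range fun w => φ ∘ₗ act ρ w) = ⊤ := by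
  set D := Submodule.span L (Set.range fun w => φ ∘ₗ act ρ w) with hD
  have hmem : ∀ x, x ∈ D.dualCoannihilator ↔ ∀ w, φ (act ρ w x) = 0 := by
    intro x
    rw [Submodule.mem_dualCoannihilator]
    constructor
    · intro hx w
      exact hx _ (Submodule.subset_span ⟨w, rfl⟩)
    · intro hx ψ hψ
      have : D ≤ LinearMap.ker (Dual.eval L V x) := by
        rw [hD, Submodule.span_le]
        rintro _ ⟨w, rfl⟩
        exact hx w
      exact this hψ
  have hinv : ∀ a, ∀ u ∈ D.dualCoannihilator, ρ a u ∈ D.dualCoannihilator := by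
    intro a u hu
    rw [hmem] at hu ⊢
    intro w
    have := hu (w ++ [a])
    rw [act_append] at this
    simpa using this
  rcases h _ hinv with h1 | h1
  · have h2 := Subspace.dualCoannihilator_dualAnnihilator_eq (K := L) (V := V) (W := D)
    rw [h1] at h2
    rw [← h2]
    simp
  · exfalso
    apply hφ
    ext x
    have : x ∈ D.dualCoannihilator := by rw [h1]; trivial
    have := (hmem x).1 this []
    simpa using this

end act

theorem irr_good (hB : S_B1) (hH : S_HULL) (hA : S_AUT) (hadd : S_ADD) (hsmul : S_SMUL)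
    {L σ V : Type} [Field L] [IsAlgClosed L] (hL : LEMB L) [AddCommGroup V] [Module L V]
    [FiniteDimensional L V] [Nontrivial V] (ρ : σ → End L V) (hρ : Irr ρ) (G : Subgroup Lˣ)
    (hG : G.FG) (heig : ∀ w c, (act ρ w).HasEigenvalue c → In0 G c) (E : L → Prop)
    (hE : ∀ c, c ≠ 0 → In0 G c → E c) (l : Dual L V) (x : V) :
    Good E (fun w => l (act ρ w x)) := by
  classical
  obtain ⟨H, hH', v, φ, hv, hφ, hval⟩ := hB L V (actM ρ) (by
    intro U hU
    refine hρ U fun a u hu => ?_
    refine hU (ρ a) ⟨[a], by simp⟩ u hu) G hG (by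
    rintro _ ⟨w, rfl⟩ c hc
    exact heig w c hc)
  obtain ⟨n, W, hcov, hdense⟩ := hH L V (Set.range fun w => act ρ w v)
  have hP : ∀ j, ∃ P : Set (Dual L (W j)), P.Finite ∧ ∀ w, ∃ p ∈ P, ∃ c : L,
      (φ ∘ₗ act ρ w).domRestrict (W j) = c • p := by
    intro j
    obtain ⟨P, hPf, hP⟩ := hL (W j) H hH' {x | (x : V) ∈ Set.range fun w => act ρ w v}
      (Set.range fun w => (φ ∘ₗ act ρ w).domRestrict (W j)) (by
        intro 𝒮 h𝒮 hne
        obtain ⟨x, hx, hxj, hx2⟩ := hdense j ((fun Z => Z.map (W j).subtype) '' 𝒮)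
          (h𝒮.image _) (by
            rintro _ ⟨Z, hZ, rfl⟩ hle
            apply hne Z hZ
            rw [eq_top_iff]
            rintro y -
            obtain ⟨z, hz, hzy⟩ := hle y.2
            have : z = y := Subtype.ext hzy
            rwa [← this])
        refine ⟨⟨x, hxj⟩, hx, fun Z hZ hxZ => ?_⟩
        exact hx2 _ ⟨Z, hZ, rfl⟩ ⟨⟨x, hxj⟩, hxZ, rfl⟩) (by
        rintro _ ⟨w, rfl⟩ ⟨x, hxj⟩ ⟨u, hu⟩
        have hu' : act ρ u v = x := hu
        have : ((φ ∘ₗ act ρ w).domRestrict (W j)) ⟨x, hxj⟩ = φ (act ρ (w ++ u) v) := by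
          rw [act_append]
          show φ (act ρ w x) = φ (act ρ w (act ρ u v))
          rw [hu']
        rw [this]
        exact hval _ ⟨w ++ u, rfl⟩)
    exact ⟨P, hPf, fun w => hP _ ⟨w, rfl⟩⟩
  choose P hPf hP using hP
  have hinv : ∀ (a : σ) (j : Fin n), ∃ k, ∀ u ∈ W j, ρ a u ∈ W k := by
    intro a j
    by_contra hcon
    push Not at hcon
    obtain ⟨x, ⟨w, hw⟩, hxj, hx2⟩ := hdense j (Set.range fun k => (W k).comap (ρ a))
      (Set.finite_range _) (by
        rintro _ ⟨k, rfl⟩ hle
        obtain ⟨u, hu, hu2⟩ := hcon k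
        exact hu2 (hle hu))
    obtain ⟨k, hk⟩ := hcov (ρ a x) ⟨a :: w, by
      have hw' : act ρ w v = x := hw
      simp [hw']⟩
    exact hx2 _ ⟨k, rfl⟩ hk
  have key : ∀ w1 w2, Good E (fun w => (φ ∘ₗ act ρ w1) (act ρ w (act ρ w2 v))) := by
    intro w1 w2
    exact hA L σ V ρ v φ n W P hPf (fun w => hcov _ ⟨w, rfl⟩) hinv (fun w j => hP j w) E
      (fun w c _ hc0 hc => hE c hc0 (heig w c hc)) w1 w2
  have h0 : Good E (fun _ : List σ => (0 : L)) := by
    have := hsmul L σ E 0 _ (key [] [])
    simpa using this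
  have step1 : ∀ w2, ∀ l : Dual L V, Good E (fun w => l (act ρ w (act ρ w2 v))) := by
    intro w2 l
    have hl : l ∈ Submodule.span L (Set.range fun w => φ ∘ₗ act ρ w) := by
      rw [span_dual ρ hρ φ hφ]; trivial
    induction hl using Submodule.span_induction with
    | mem l hl =>
      obtain ⟨w1, rfl⟩ := hl
      exact key w1 w2
    | zero => simpa using h0
    | add l l' _ _ h1 h2 => simpa using hadd L σ E _ _ h1 h2
    | smul b l _ h1 => simpa using hsmul L σ E b _ h1
  have hx : x ∈ Submodule.span L (Set.range fun w => act ρ w v) := by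
    rw [span_orbit ρ hρ v hv]; trivial
  induction hx using Submodule.span_induction with
  | mem x hx =>
    obtain ⟨w2, rfl⟩ := hx
    exact step1 w2 l
  | zero => simpa using h0
  | add x y _ _ h1 h2 => simpa using hadd L σ E _ _ h1 h2
  | smul b x _ h1 => simpa using hsmul L σ E b _ h1

end Pool.Agent.K1H77.PA
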